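import Pool.Agent.H751R2.LHY.Main

/-!
# Lower bound of Lee-Huang-Yang order on the depletion of the condensate

Setting: `N` particles of mass `m` in the periodic box of side `ℓ`, pair interaction `v ≥ 0`,
`v` integrable and even (no hard core), density `ρ = N / ℓ ^ 3`.

Positions are written in the rescaled variable `y = x / ℓ`, so that an `N`-particle state is a
function `ψ : Cfg N → ℂ` on `(ℝ³/ℤ³)^N`, with normalised Haar measure. With
`ψ = ∑_M (coef ψ M) e^{2πi ∑_j M_j · y_j}`,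

* `kinE q ψ = ∑_M (∑_j q |M_j|²) |coef ψ M|²`,
* `perPot v ℓ` is the periodisation of `v` on the box of side `ℓ` (in the variable `y`),
* `potE W ψ = ∫ ∑_{i<j} W (y_i - y_j) |ψ|²`,
* `kinE ((1 / 2m) (2π/ℓ)²) ψ + potE (perPot v ℓ) ψ` is the quadratic form of the Hamiltonian `H_N`
  of the problem on the box of side `ℓ` (`∞` if `ψ` is outside the form domain),
* `occE ψ P = ∑_M #{j | P M_j} |coef ψ M|²` is the expected number of particles whose momentum
  label `n` (momentum `2π n/ℓ`) satisfies `P`. For `P n ↔ n = 0` it is `∑_j ⟨ψ, P_j ψ⟩`.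

The theorem: at small density and for all large `N`, every normalised state whose energy exceeds
the infimum by at most `c ρ^{3/2} N` (in particular the ground state) has at least `c √ρ N`
particles with nonzero momentum of size at most `√(C ρ)`, and at most `(1 - c √ρ) N` particles
in the condensate. The constants depend on `m` and `v` only.

Proof modules by several authors: see the imports of `Pool.Agent.H751R2.LHY.Core`.
-/

open MeasureTheory UnitAddTorus
open scoped ENNReal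

namespace Pool.Agent.Results.MP_4952d6_mp.DepletionLowerBound

open Pool.Agent.H751R2.LHY

theorem result (m : ℝ) (hm : 0 < m) (v : (Fin 3 → ℝ) → ℝ) (hvm : Measurable v)
    (hv : Integrable v) (h0 : ∀ x, 0 ≤ v x) (he : ∀ x, v (-x) = v x) (hV : 0 < ∫ x, v x) :
    ∃ c C ρ₀ : ℝ, 0 < c ∧ 0 < C ∧ 0 < ρ₀ ∧ ∀ ρ : ℝ, 0 < ρ → ρ < ρ₀ →
      ∃ N₀ : ℕ, ∀ N : ℕ, N₀ ≤ N → ∀ ℓ : ℝ, 0 < ℓ → (N : ℝ) = ρ * ℓ ^ 3 →
        ∀ ψ : Cfg N → ℂ, MemLp ψ 2 → ∫ x, ‖ψ x‖ ^ 2 = 1 →
          (∀ φ : Cfg N → ℂ, MemLp φ 2 → ∫ x, ‖φ x‖ ^ 2 = 1 →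
            kinE (1 / (2 * m) * (2 * Real.pi / ℓ) ^ 2) ψ + potE (perPot v ℓ) ψ ≤
              kinE (1 / (2 * m) * (2 * Real.pi / ℓ) ^ 2) φ + potE (perPot v ℓ) φ +
                ENNReal.ofReal (c * (ρ * √ρ) * N)) →
          ENNReal.ofReal (c * √ρ * N) ≤
              occE ψ (fun n => n ≠ 0 ∧ (2 * Real.pi / ℓ) ^ 2 * (∑ a, (n a : ℝ) ^ 2) ≤ C * ρ) ∧
            occE ψ (fun n => n = 0) ≤ ENNReal.ofReal (N - c * √ρ * N) :=
  depletion m hm v hvm hv h0 he hV

end Pool.Agent.Results.MP_4952d6_mp.DepletionLowerBound
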